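import Mathlib
import Pool.Agent.Y332.TG.Lower

set_option autoImplicit false

namespace Pool.Agent.Results.MP_af9f8b_co.NormedSpaces

/-- The tangent graph of the balls of the normed space `E` with centres the points of `A` and
radii `r a`: two distinct centres are adjacent when their distance is the sum of the radii. -/
def tangentGraph {E : Type} [NormedAddCommGroup E] (A : Finset E) (r : E → ℝ) : SimpleGraph A where
  Adj a b := a ≠ b ∧ dist (a : E) (b : E) = r a + r b
  symm := ⟨fun a b h => ⟨h.1.symm, by rw [dist_comm, h.2, add_comm]⟩⟩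
  loopless := ⟨fun a h => h.1 rfl⟩

/-- The largest chromatic number of a tangent graph of `n` balls with positive radii and distinct
centres in `E`. -/
noncomputable def chi (E : Type) [NormedAddCommGroup E] (n : ℕ) : ℕ∞ :=
  ⨆ (A : Finset E) (r : E → ℝ) (_ : A.card = n) (_ : ∀ a ∈ A, 0 < r a),
    (tangentGraph A r).chromaticNumber

/-- Sanity check: the adjacency says that the closed balls meet and their interiors are
disjoint. -/
theorem adj_iff {E : Type} [NormedAddCommGroup E] [NormedSpace ℝ E] (a b : E) (s t : ℝ)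
    (hs : 0 < s) (ht : 0 < t) :
    dist a b = s + t ↔ (Metric.closedBall a s ∩ Metric.closedBall b t).Nonempty ∧
      Disjoint (interior (Metric.closedBall a s)) (interior (Metric.closedBall b t)) := by
  rw [interior_closedBall a hs.ne', interior_closedBall b ht.ne', disjoint_ball_ball_iff hs ht,
    ← Set.not_disjoint_iff_nonempty_inter, disjoint_closedBall_closedBall_iff hs.le ht.le]
  constructor
  · intro h; exact ⟨by rw [h]; exact lt_irrefl _, h.ge⟩
  · rintro ⟨h1, h2⟩; exact le_antisymm (not_lt.1 h1) h2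

/-- In every finite-dimensional real normed space `E ≠ 0` (in particular in the Euclidean spaces
of all dimensions) the largest chromatic number of a tangent graph of `n` balls is of order
`log n`. -/
theorem result (E : Type) [NormedAddCommGroup E] [NormedSpace ℝ E] [FiniteDimensional ℝ E]
    [Nontrivial E] : ∃ c C : ℝ, 0 < c ∧ 0 < C ∧ ∀ n : ℕ, 2 ≤ n →
    ∃ k : ℕ, chi E n = k ∧ c * Real.log n ≤ k ∧ (k : ℝ) ≤ C * Real.log n := by
  have hl2 : 0 < Real.log 2 := Real.log_pos (by norm_num)
  obtain ⟨d, K, ⟨Co⟩⟩ := Pool.Agent.Y332.TG.exists_coord E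
  obtain ⟨e, he⟩ := exists_norm_eq E (zero_le_one (α := ℝ))
  set M : ℕ := 2 ^ d * (14 * K) ^ d with hM
  have hM0 : 0 < M := Nat.mul_pos (by positivity) (pow_pos (Nat.mul_pos (by norm_num) Co.hK) _)
  have hM0' : (0 : ℝ) < M := by exact_mod_cast hM0
  refine ⟨1 / (2 * Real.log 2), 2 * M / Real.log 2, by positivity, by positivity, ?_⟩
  intro n hn
  have hub : chi E n ≤ ((M * (Nat.log 2 n + 1) : ℕ) : ℕ∞) := by
    unfold chi
    refine iSup_le fun A => iSup_le fun r => iSup_le fun hA => iSup_le fun hr => ?_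
    have h := Pool.Agent.Y332.TG.upper Co hr (t := Nat.log 2 n + 1)
      (by rw [hA]; exact Nat.lt_pow_succ_log_self (by norm_num) n)
    rw [← mul_assoc] at h
    exact h.chromaticNumber_le
  obtain ⟨k, hk⟩ : ∃ k : ℕ, chi E n = k := by
    have h : chi E n ≠ ⊤ := ne_top_of_le_ne_top (ENat.natCast_ne_top _) hub
    exact ⟨(chi E n).toNat, (ENat.natCast_toNat h).symm⟩
  refine ⟨k, hk, ?_, ?_⟩
  · obtain ⟨A, hA, hlow⟩ := Pool.Agent.Y332.TG.lower e he n
    have h1 : (tangentGraph A (Pool.Agent.Y332.TG.rad e)).chromaticNumber ≤ k := by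
      rw [← hk]
      unfold chi
      exact le_iSup_of_le A (le_iSup_of_le (Pool.Agent.Y332.TG.rad e) (le_iSup_of_le hA
        (le_iSup_of_le (fun a _ => Pool.Agent.Y332.TG.rad_pos e a) le_rfl)))
    have h2 : (tangentGraph A (Pool.Agent.Y332.TG.rad e)).Colorable k :=
      SimpleGraph.chromaticNumber_le_iff_colorable.1 h1
    have h3 := hlow k h2
    have h4 : n < (Nat.sqrt n + 1) * (Nat.sqrt n + 1) := Nat.lt_succ_sqrt n
    have h5 : n ≤ 2 ^ (2 * k) := by
      have : (Nat.sqrt n + 1) * (Nat.sqrt n + 1) ≤ 2 ^ k * 2 ^ k := Nat.mul_le_mul h3 h3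
      rw [two_mul, pow_add]
      omega
    have h6 : (n : ℝ) ≤ 2 ^ (2 * k) := by exact_mod_cast h5
    have h7 : Real.log n ≤ (2 * k) * Real.log 2 := by
      have := Real.log_le_log (by positivity) h6
      rw [Real.log_pow] at this
      push_cast at this
      exact this
    rw [div_mul_eq_mul_div, one_mul, div_le_iff₀ (by positivity)]
    linarith
  · have h1 : k ≤ M * (Nat.log 2 n + 1) := by
      rw [hk] at hub
      exact_mod_cast hub
    have h2 : (Nat.log 2 n : ℝ) ≤ Real.log n / Real.log 2 := by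
      have := Real.natLog_le_logb n 2
      rw [Real.logb] at this
      exact_mod_cast this
    have h3 : (1 : ℝ) ≤ Real.log n / Real.log 2 := by
      rw [le_div_iff₀ hl2, one_mul]
      exact Real.log_le_log (by norm_num) (by exact_mod_cast hn)
    have h4 : (k : ℝ) ≤ M * (Nat.log 2 n + 1) := by exact_mod_cast h1
    calc (k : ℝ) ≤ M * (Nat.log 2 n + 1) := h4
      _ ≤ M * (Real.log n / Real.log 2 + Real.log n / Real.log 2) := by gcongr
      _ = 2 * M / Real.log 2 * Real.log n := by ring

end Pool.Agent.Results.MP_af9f8b_co.NormedSpaces
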